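import Pool.Agent.Helper62.EX.TB
import Pool.Agent.Helper36.EX.DL

/-!
# MP_2857a5_co : module HL (harvesting)
-/

set_option autoImplicit false

open Finset
open scoped Classical

namespace OT

noncomputable section

variable {n : ℕ}

/-! ### Basic facts -/

lemma hl_mem_ch {T : PTree n} {v c : Fin n} : c ∈ T.ch v ↔ (c : ℕ) ≠ 0 ∧ T.par c = v := by
  simp [PTree.ch]

lemma hl_le_ch {T : PTree n} {v c : Fin n} (h : c ∈ T.ch v) : T.Le v c := by
  rw [hl_mem_ch] at h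
  rw [PTree.le_iff]
  right
  refine ⟨h.1, ?_⟩
  rw [h.2]
  exact PTree.Le.refl T v

lemma hl_lt_ch {T : PTree n} {v c : Fin n} (h : c ∈ T.ch v) : v < c := by
  rw [hl_mem_ch] at h
  have := T.lt c h.1
  rwa [h.2] at this

lemma hl_sub_subset {T : PTree n} {z v : Fin n} (h : v ∈ T.sub z) : T.sub v ⊆ T.sub z := by
  intro w hw
  rw [PTree.mem_sub] at *
  exact h.trans hw

lemma hl_ch_sub {T : PTree n} {z v c : Fin n} (h : v ∈ T.sub z) (hc : c ∈ T.ch v) :
    c ∈ T.sub z := by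
  rw [PTree.mem_sub] at *
  exact h.trans (hl_le_ch hc)

lemma hl_self_sub (T : PTree n) (z : Fin n) : z ∈ T.sub z := by
  rw [PTree.mem_sub]
  exact PTree.Le.refl T z

/-- The parent of a proper descendant. -/
lemma hl_par_sub {T : PTree n} {z v : Fin n} (h : v ∈ T.sub z) (hv : v ≠ z) :
    (v : ℕ) ≠ 0 ∧ T.par v ∈ T.sub z := by
  rw [PTree.mem_sub] at *
  rw [PTree.le_iff] at h
  rcases h with h | h
  · exact absurd h.symm hv
  · exact h

lemma hl_mem_ch_par {T : PTree n} {v : Fin n} (h : (v : ℕ) ≠ 0) : v ∈ T.ch (T.par v) := by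
  rw [hl_mem_ch]
  exact ⟨h, rfl⟩

lemma hl_le_of_sub {T : PTree n} {z v : Fin n} (h : v ∈ T.sub z) : z ≤ v := by
  rw [PTree.mem_sub] at h
  exact h.le

/-- If `v` is outside the subtree at `c`, so is its parent. -/
lemma hl_par_not_sub {T : PTree n} {z v : Fin n} (h : v ∉ T.sub z) (hv : (v : ℕ) ≠ 0) :
    T.par v ∉ T.sub z := fun h' => h (hl_ch_sub h' (hl_mem_ch_par hv))

lemma hl_nb_ch {T : PTree n} {v c : Fin n} (h : c ∈ T.ch v) : c ∈ T.ball 1 v := by
  rw [hl_mem_ch] at h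
  exact PTree.Nb.mem_ball (Or.inl h)

lemma hl_ball_succ {T : PTree n} {R : ℕ} {v c : Fin n} (h : c ∈ T.ch v) : c ∈ T.ball (R+1) v :=
  PTree.ball_mono T (by omega) v (hl_nb_ch h)

/-! ### Items -/

lemma hl_mem_item {T : PTree n} {far : Fin n → Bool} {b : Bool} {t v : Fin n} :
    v ∈ T.item far b t ↔ ∃ c ∈ T.tops far b t, v ∈ T.sub c := by
  simp [PTree.item]

lemma hl_tops_subset {T : PTree n} {far : Fin n → Bool} {b : Bool} {t : Fin n} :
    T.tops far b t ⊆ T.item far b t := by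
  intro v hv
  rw [hl_mem_item]
  exact ⟨v, hv, hl_self_sub T v⟩

lemma hl_tops_cases {T : PTree n} {far : Fin n → Bool} {b : Bool} {t c : Fin n}
    (h : c ∈ T.tops far b t) : (b = false ∧ c = t) ∨ (b = true ∧ c ∈ T.ch t ∧ far c = true) := by
  unfold PTree.tops at h
  split_ifs at h with hb
  · right
    refine ⟨hb, ?_⟩
    simpa [PTree.far] using h
  · left
    refine ⟨by simpa using hb, by simpa using h⟩

lemma hl_tops_sub {T : PTree n} {far : Fin n → Bool} {b : Bool} {t c z : Fin n}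
    (ht : t ∈ T.sub z) (h : c ∈ T.tops far b t) : c ∈ T.sub z := by
  rcases hl_tops_cases h with ⟨_, rfl⟩ | ⟨_, h, _⟩
  · exact ht
  · exact hl_ch_sub ht h

lemma hl_item_sub {T : PTree n} {far : Fin n → Bool} {b : Bool} {t z : Fin n}
    (ht : t ∈ T.sub z) : T.item far b t ⊆ T.sub z := by
  intro v hv
  rw [hl_mem_item] at hv
  obtain ⟨c, hc, hv⟩ := hv
  exact hl_sub_subset (hl_tops_sub ht hc) hv

lemma hl_item_closed {T : PTree n} {far : Fin n → Bool} {b : Bool} {t v c : Fin n}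
    (hv : v ∈ T.item far b t) (hc : c ∈ T.ch v) : c ∈ T.item far b t := by
  rw [hl_mem_item] at *
  obtain ⟨r, hr, hv⟩ := hv
  exact ⟨r, hr, hl_ch_sub hv hc⟩

lemma hl_item_par {T : PTree n} {far : Fin n → Bool} {b : Bool} {t v : Fin n}
    (hv : v ∈ T.item far b t) (hc : v ∉ T.tops far b t) :
    (v : ℕ) ≠ 0 ∧ T.par v ∈ T.item far b t := by
  rw [hl_mem_item] at *
  obtain ⟨r, hr, hv⟩ := hv
  have hne : v ≠ r := fun h => hc (h ▸ hr)
  obtain ⟨h1, h2⟩ := hl_par_sub hv hne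
  exact ⟨h1, r, hr, h2⟩

/-- `z` is not in the items below it. -/
lemma hl_z_item {T : PTree n} {far : Fin n → Bool} {b : Bool} {t z : Fin n}
    (ht : t ∈ T.sub z) (hb : b = false → t ≠ z) : z ∉ T.item far b t := by
  intro h
  rw [hl_mem_item] at h
  obtain ⟨c, hc, hz⟩ := h
  have h1 := hl_le_of_sub hz
  have h2 := hl_le_of_sub ht
  rcases hl_tops_cases hc with ⟨hb', rfl⟩ | ⟨_, hc, _⟩
  · exact hb hb' (le_antisymm h1 h2)
  · exact absurd (hl_lt_ch hc) (not_lt.2 (h1.trans h2))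

/-- The top of a group is not in the group. -/
lemma hl_group_self {T : PTree n} {far : Fin n → Bool} {t : Fin n} : t ∉ T.item far true t :=
  hl_z_item (hl_self_sub T t) (fun h => absurd h (by simp))

/-- The union of the items. -/
def HLH (T : PTree n) (far : Fin n → Bool) (a : Bool × Fin n) (W : Finset (Bool × Fin n)) :
    Finset (Fin n) :=
  T.item far a.1 a.2 ∪ W.biUnion fun w => T.item far w.1 w.2

lemma hl_mem_H {T : PTree n} {far : Fin n → Bool} {a : Bool × Fin n}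
    {W : Finset (Bool × Fin n)} {v : Fin n} :
    v ∈ HLH T far a W ↔ v ∈ T.item far a.1 a.2 ∨ ∃ w ∈ W, v ∈ T.item far w.1 w.2 := by
  simp [HLH]

lemma hl_H_closed {T : PTree n} {far : Fin n → Bool} {a : Bool × Fin n}
    {W : Finset (Bool × Fin n)} {v c : Fin n} (hv : v ∈ HLH T far a W) (hc : c ∈ T.ch v) :
    c ∈ HLH T far a W := by
  rw [hl_mem_H] at *
  rcases hv with hv | ⟨w, hw, hv⟩
  · exact Or.inl (hl_item_closed hv hc)
  · exact Or.inr ⟨w, hw, hl_item_closed hv hc⟩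

/-- The state of the greedy algorithm. -/
structure HLSt (T : PTree n) (pos : Fin n → Bool) (R : ℕ) (Z : Finset (Fin n))
    (z : Fin n) (a : Bool × Fin n) (W : Finset (Bool × Fin n)) : Prop where
  asub : a.2 ∈ T.sub z
  aZ : a.2 ∉ Z
  az : a.2 ∉ T.ball R z
  apos : a.1 = false → a.2 ≠ z ∧ pos a.2 = true
  subz : ∀ w ∈ W, w.2 ∈ T.sub z
  nZ : ∀ w ∈ W, w.2 ∉ Z
  nz : ∀ w ∈ W, w.2 ∉ T.ball R z
  ps : ∀ w ∈ W, w.1 = false → w.2 ≠ z ∧ pos w.2 = false
  sep : ∀ w ∈ W, ∀ w' ∈ W, w ≠ w' → w'.2 ∉ T.ball (R+1) w.2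
  sepa : ∀ w ∈ W, w.2 ∉ T.ball (R+1) a.2

variable {T : PTree n} {pos far : Fin n → Bool} {R : ℕ} {Z : Finset (Fin n)}
  {z : Fin n} {a : Bool × Fin n} {W : Finset (Bool × Fin n)}

lemma hl_ne_of_ball {u v : Fin n} (h : u ∉ T.ball (R+1) v) : u ≠ v := fun h' =>
  h (h' ▸ PTree.self_mem_ball T (R+1) u)

/-- A vertex of `H` with parent outside `H` is a top. -/
lemma hl_H_top {v : Fin n} (hv : v ∈ HLH T far a W)
    (hp : (v : ℕ) = 0 ∨ T.par v ∉ HLH T far a W) :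
    v ∈ T.tops far a.1 a.2 ∨ ∃ w ∈ W, v ∈ T.tops far w.1 w.2 := by
  by_contra hcon
  push Not at hcon
  have hv' := hv
  rw [hl_mem_H] at hv'
  rcases hv' with hv' | ⟨w, hw, hv'⟩
  · obtain ⟨h1, h2⟩ := hl_item_par hv' hcon.1
    rcases hp with hp | hp
    · exact h1 hp
    · exact hp (hl_mem_H.2 (Or.inl h2))
  · obtain ⟨h1, h2⟩ := hl_item_par hv' (hcon.2 w hw)
    rcases hp with hp | hp
    · exact h1 hp
    · exact hp (hl_mem_H.2 (Or.inr ⟨w, hw, h2⟩))

/-- the cut sets -/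
def HLG (T : PTree n) (far : Fin n → Bool) (a : Bool × Fin n) (W : Finset (Bool × Fin n)) :
    Finset (Fin n) := HLH T far a W \ T.item far a.1 a.2

/-- the windows -/
def HLQ (T : PTree n) (far : Fin n → Bool) (a : Bool × Fin n) (W : Finset (Bool × Fin n)) :
    Finset (Fin n) :=
  (W.filter fun w => w.1 = false ∧ T.par w.2 ∉ HLH T far a W).image Prod.snd ∪
    (if a.1 = false ∧ T.par a.2 ∈ HLG T far a W then {a.2} else ∅)

/-- the groups -/
def HLP (T : PTree n) (far : Fin n → Bool) (a : Bool × Fin n) (W : Finset (Bool × Fin n)) :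
    Finset (Fin n) :=
  (W.filter fun w => w.1 = true ∧ w.2 ∉ HLH T far a W).image Prod.snd ∪
    (if a.1 = true ∧ a.2 ∈ HLG T far a W then {a.2} else ∅)

lemma hl_mem_Q {v : Fin n} : v ∈ HLQ T far a W ↔
    (∃ w ∈ W, w.1 = false ∧ T.par w.2 ∉ HLH T far a W ∧ w.2 = v) ∨
      (a.1 = false ∧ T.par a.2 ∈ HLG T far a W ∧ v = a.2) := by
  unfold HLQ
  rw [mem_union, mem_image]
  constructor
  · rintro (⟨w, hw, rfl⟩ | h)
    · rw [mem_filter] at hw
      exact Or.inl ⟨w, hw.1, hw.2.1, hw.2.2, rfl⟩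
    · split_ifs at h with h'
      · exact Or.inr ⟨h'.1, h'.2, by simpa using h⟩
      · simp at h
  · rintro (⟨w, hw, h1, h2, rfl⟩ | ⟨h1, h2, rfl⟩)
    · exact Or.inl ⟨w, mem_filter.2 ⟨hw, h1, h2⟩, rfl⟩
    · right
      rw [if_pos ⟨h1, h2⟩]
      simp

lemma hl_mem_P {v : Fin n} : v ∈ HLP T far a W ↔
    (∃ w ∈ W, w.1 = true ∧ w.2 ∉ HLH T far a W ∧ w.2 = v) ∨
      (a.1 = true ∧ a.2 ∈ HLG T far a W ∧ v = a.2) := by
  unfold HLP
  rw [mem_union, mem_image]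
  constructor
  · rintro (⟨w, hw, rfl⟩ | h)
    · rw [mem_filter] at hw
      exact Or.inl ⟨w, hw.1, hw.2.1, hw.2.2, rfl⟩
    · split_ifs at h with h'
      · exact Or.inr ⟨h'.1, h'.2, by simpa using h⟩
      · simp at h
  · rintro (⟨w, hw, h1, h2, rfl⟩ | ⟨h1, h2, rfl⟩)
    · exact Or.inl ⟨w, mem_filter.2 ⟨hw, h1, h2⟩, rfl⟩
    · right
      rw [if_pos ⟨h1, h2⟩]
      simp

lemma hl_mem_G {v : Fin n} : v ∈ HLG T far a W ↔ v ∈ HLH T far a W ∧ v ∉ T.item far a.1 a.2 := by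
  unfold HLG
  rw [mem_sdiff]

/-! ### The boundary -/

lemma hl_top_not_res (hS : HLSt T pos R Z z a W) {w : Bool × Fin n} (hw : w ∈ W) {v : Fin n}
    (hv : v ∈ T.tops far w.1 w.2) (hp : T.par v ∉ HLH T far a W) :
    v ∉ T.item far a.1 a.2 := by
  intro h
  have hva : v ∈ T.tops far a.1 a.2 := by
    by_contra hcon
    exact hp (hl_mem_H.2 (Or.inl (hl_item_par h hcon).2))
  have hsep := hS.sepa w hw
  rcases hl_tops_cases hva with ⟨_, rfl⟩ | ⟨_, h1, _⟩ <;>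
    rcases hl_tops_cases hv with ⟨_, h3⟩ | ⟨_, h2, _⟩
  · exact hl_ne_of_ball hsep h3.symm
  · exact hsep (PTree.mem_ball_comm.1 (hl_ball_succ h2))
  · rw [h3] at h1
    exact hsep (hl_ball_succ h1)
  · rw [hl_mem_ch] at h1 h2
    exact hl_ne_of_ball hsep (h2.2.symm.trans h1.2)

lemma hl_H_sub (hS : HLSt T pos R Z z a W) : HLH T far a W ⊆ T.sub z := by
  intro v hv
  rw [hl_mem_H] at hv
  rcases hv with hv | ⟨w, hw, hv⟩
  · exact hl_item_sub hS.asub hv
  · exact hl_item_sub (hS.subz w hw) hv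

lemma hl_H_z (hS : HLSt T pos R Z z a W) : z ∉ HLH T far a W := by
  intro hv
  rw [hl_mem_H] at hv
  rcases hv with hv | ⟨w, hw, hv⟩
  · exact hl_z_item hS.asub (fun h => (hS.apos h).1) hv
  · exact hl_z_item (hS.subz w hw) (fun h => (hS.ps w hw h).1) hv

lemma hl_mem_bdIn {G : Finset (Fin n)} {v : Fin n} :
    v ∈ T.bdIn z G ↔ v ∈ T.sub z ∧ v ≠ z ∧ ¬ (v ∈ G ↔ T.par v ∈ G) := by
  simp [PTree.bdIn]

lemma hl_bd_cases {v : Fin n} (hv : v ∈ T.bdIn z (HLG T far a W)) :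
    (v ∈ HLG T far a W ∧ T.par v ∉ HLH T far a W ∧ ∃ w ∈ W, v ∈ T.tops far w.1 w.2) ∨
      (v ∉ HLG T far a W ∧ v ∈ T.tops far a.1 a.2 ∧ T.par v ∈ HLG T far a W) := by
  rw [hl_mem_bdIn] at hv
  obtain ⟨h1, h2, h3⟩ := hv
  obtain ⟨h4, h5⟩ := hl_par_sub h1 h2
  have hch := hl_mem_ch_par h4 (T := T)
  by_cases hG : v ∈ HLG T far a W
  · left
    have hpG : T.par v ∉ HLG T far a W := fun h => h3 ⟨fun _ => h, fun _ => hG⟩
    have hG' := hl_mem_G.1 hG
    have hpH : T.par v ∉ HLH T far a W := by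
      intro h
      have : T.par v ∈ T.item far a.1 a.2 := by
        by_contra hcon
        exact hpG (hl_mem_G.2 ⟨h, hcon⟩)
      exact hG'.2 (hl_item_closed this hch)
    refine ⟨hG, hpH, ?_⟩
    rcases hl_H_top hG'.1 (Or.inr hpH) with h | h
    · exact absurd (hl_tops_subset h) hG'.2
    · exact h
  · right
    have hpG : T.par v ∈ HLG T far a W := by
      by_contra hcon
      exact h3 ⟨fun h => absurd h hG, fun h => absurd h hcon⟩
    have hpG' := hl_mem_G.1 hpG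
    have hvH : v ∈ HLH T far a W := hl_H_closed hpG'.1 hch
    have hva : v ∈ T.item far a.1 a.2 := by
      by_contra hcon
      exact hG (hl_mem_G.2 ⟨hvH, hcon⟩)
    refine ⟨hG, ?_, hpG⟩
    by_contra hcon
    exact hpG'.2 (hl_item_par hva hcon).2

lemma hl_bd_of_w (hS : HLSt T pos R Z z a W) {w : Bool × Fin n} (hw : w ∈ W) {v : Fin n}
    (hv : v ∈ T.tops far w.1 w.2) (hp : T.par v ∉ HLH T far a W) :
    v ∈ HLG T far a W ∧ v ∈ T.bdIn z (HLG T far a W) := by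
  have hH : v ∈ HLH T far a W := hl_mem_H.2 (Or.inr ⟨w, hw, hl_tops_subset hv⟩)
  have hG : v ∈ HLG T far a W := hl_mem_G.2 ⟨hH, hl_top_not_res hS hw hv hp⟩
  refine ⟨hG, hl_mem_bdIn.2 ⟨hl_H_sub hS hH, ?_, ?_⟩⟩
  · rintro rfl
    exact hl_H_z hS hH
  · intro h
    exact hp (hl_mem_G.1 (h.1 hG)).1

lemma hl_bd_of_a (hS : HLSt T pos R Z z a W) {v : Fin n}
    (hv : v ∈ T.tops far a.1 a.2) (hp : T.par v ∈ HLG T far a W) :
    v ∉ HLG T far a W ∧ v ∈ T.bdIn z (HLG T far a W) := by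
  have hH : v ∈ HLH T far a W := hl_mem_H.2 (Or.inl (hl_tops_subset hv))
  have hG : v ∉ HLG T far a W := fun h => (hl_mem_G.1 h).2 (hl_tops_subset hv)
  refine ⟨hG, hl_mem_bdIn.2 ⟨hl_H_sub hS hH, ?_, ?_⟩⟩
  · rintro rfl
    exact hl_H_z hS hH
  · intro h
    exact hG (h.2 hp)

lemma hl_mem_PQ {v : Fin n} (hv : v ∈ HLP T far a W ∪ HLQ T far a W) :
    v = a.2 ∨ ∃ w ∈ W, v = w.2 := by
  rw [mem_union, hl_mem_P, hl_mem_Q] at hv
  rcases hv with (⟨w, hw, _, _, rfl⟩ | ⟨_, _, h⟩) | (⟨w, hw, _, _, rfl⟩ | ⟨_, _, h⟩)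
  · exact Or.inr ⟨w, hw, rfl⟩
  · exact Or.inl h
  · exact Or.inr ⟨w, hw, rfl⟩
  · exact Or.inl h

lemma hl_layIn (hS : HLSt T pos R Z z a W) :
    LayIn T pos far R Z z (HLG T far a W) (HLP T far a W) (HLQ T far a W) where
  sub := fun v hv => hl_H_sub hS (hl_mem_G.1 hv).1
  top := fun hv => hl_H_z hS (hl_mem_G.1 hv).1
  bd := by
    intro v hv
    rcases hl_bd_cases hv with ⟨hG, hp, w, hw, ht⟩ | ⟨hG, ht, hp⟩
    · rcases hl_tops_cases ht with ⟨h1, rfl⟩ | ⟨h1, h2, h3⟩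
      · left
        exact hl_mem_Q.2 (Or.inl ⟨w, hw, h1, hp, rfl⟩)
      · right
        rw [hl_mem_ch] at h2
        rw [h2.2] at hp ⊢
        exact ⟨h3, hl_mem_P.2 (Or.inl ⟨w, hw, h1, hp, rfl⟩)⟩
    · rcases hl_tops_cases ht with ⟨h1, rfl⟩ | ⟨h1, h2, h3⟩
      · left
        exact hl_mem_Q.2 (Or.inr ⟨h1, hp, rfl⟩)
      · right
        rw [hl_mem_ch] at h2
        rw [h2.2] at hp ⊢
        exact ⟨h3, hl_mem_P.2 (Or.inr ⟨h1, hp, rfl⟩)⟩
  sgl := by
    intro v hv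
    rw [hl_mem_Q] at hv
    rcases hv with ⟨w, hw, h1, h2, rfl⟩ | ⟨h1, h2, rfl⟩
    · have ht : w.2 ∈ T.tops far w.1 w.2 := by
        unfold PTree.tops
        rw [if_neg (by simp [h1])]
        simp
      obtain ⟨h3, h4⟩ := hl_bd_of_w hS hw ht h2
      refine ⟨h4, ?_⟩
      rw [(hS.ps w hw h1).2]
      simp [h3]
    · have ht : a.2 ∈ T.tops far a.1 a.2 := by
        unfold PTree.tops
        rw [if_neg (by simp [h1])]
        simp
      obtain ⟨h3, h4⟩ := hl_bd_of_a hS ht h2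
      refine ⟨h4, ?_⟩
      rw [(hS.apos h1).2]
      simp [h3]
  gFar := by
    intro p hp c hc hf
    rw [hl_mem_P] at hp
    have hc' := hl_mem_ch.1 hc
    rcases hp with ⟨w, hw, h1, h2, rfl⟩ | ⟨h1, h2, rfl⟩
    · have ht : c ∈ T.tops far w.1 w.2 := by
        unfold PTree.tops
        rw [if_pos h1]
        simp [PTree.far, hc, hf]
      rw [← hc'.2] at h2
      exact (hl_bd_of_w hS hw ht h2).2
    · have ht : c ∈ T.tops far a.1 a.2 := by
        unfold PTree.tops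
        rw [if_pos h1]
        simp [PTree.far, hc, hf]
      rw [← hc'.2] at h2
      exact (hl_bd_of_a hS ht h2).2
  gNear := by
    intro p hp c hc hf hbd
    rw [hl_mem_P] at hp
    have hc' := hl_mem_ch.1 hc
    rcases hl_bd_cases hbd with ⟨hG, hpH, w', hw', ht⟩ | ⟨hG, ht, hpG⟩
    · rw [hc'.2] at hpH
      rcases hp with ⟨w, hw, h1, h2, rfl⟩ | ⟨h1, h2, rfl⟩
      · rcases hl_tops_cases ht with ⟨_, h4⟩ | ⟨_, _, h4⟩
        · by_cases hww : w = w'
          · subst hww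
            exact absurd (hl_lt_ch hc) (by rw [h4]; exact lt_irrefl _)
          · refine hS.sep w hw w' hw' hww ?_
            rw [← h4]
            exact hl_ball_succ hc
        · rw [hf] at h4
          exact absurd h4 (by simp)
      · exact hpH (hl_mem_G.1 h2).1
    · rcases hl_tops_cases ht with ⟨h4, h5⟩ | ⟨_, _, h4⟩
      · rw [hc'.2] at hpG
        rcases hp with ⟨w, hw, h1, h2, rfl⟩ | ⟨h1, h2, rfl⟩
        · exact h2 (hl_mem_G.1 hpG).1
        · rw [h4] at h1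
          exact absurd h1 (by simp)
      · rw [hf] at h4
        exact absurd h4 (by simp)
  gSelf := by
    intro p hp
    rw [hl_mem_P] at hp
    constructor
    · rcases hp with ⟨w, hw, h1, h2, rfl⟩ | ⟨h1, h2, rfl⟩
      · exact hS.subz w hw
      · exact hS.asub
    · intro hbd
      rcases hl_bd_cases hbd with ⟨hG, hpH, w', hw', ht⟩ | ⟨hG, ht, hpG⟩
      · rcases hp with ⟨w, hw, h1, h2, rfl⟩ | ⟨h1, h2, rfl⟩
        · exact h2 (hl_mem_G.1 hG).1
        · have hsep := hS.sepa w' hw'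
          rcases hl_tops_cases ht with ⟨_, h4⟩ | ⟨_, h4, _⟩
          · exact hl_ne_of_ball hsep h4.symm
          · exact hsep (PTree.mem_ball_comm.1 (hl_ball_succ h4))
      · rcases hp with ⟨w, hw, h1, h2, rfl⟩ | ⟨h1, h2, rfl⟩
        · have hsep := hS.sepa w hw
          rcases hl_tops_cases ht with ⟨_, h4⟩ | ⟨_, h4, _⟩
          · exact hl_ne_of_ball hsep h4
          · exact hsep (hl_ball_succ h4)
        · exact hG h2
  away := by
    intro v hv
    rcases hl_mem_PQ hv with rfl | ⟨w, hw, rfl⟩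
    · exact ⟨hS.aZ, hS.az⟩
    · exact ⟨hS.nZ w hw, hS.nz w hw⟩
  sep := by
    intro u hu v hv huv hb
    have hb' : v ∈ T.ball (R+1) u := PTree.ball_mono T (by omega) u hb
    rcases hl_mem_PQ hu with rfl | ⟨w, hw, rfl⟩ <;> rcases hl_mem_PQ hv with rfl | ⟨w', hw', rfl⟩
    · exact huv rfl
    · exact hS.sepa w' hw' hb'
    · exact hS.sepa w hw (PTree.mem_ball_comm.1 hb')
    · refine hS.sep w hw w' hw' (fun h => huv (by rw [h])) hb'

/-! ### Combining two levels -/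

lemma hl_bd_combine {G G' : Finset (Fin n)} {z' : Fin n} (hz : z' ∈ T.sub z) (hne : z' ≠ z)
    (hG : ∀ v ∈ G, v ∉ T.sub z') (hG' : G' ⊆ T.sub z') (htop : z' ∉ G') (v : Fin n) :
    ((v ∈ T.sub z' ∧ v ≠ z') →
      (v ∈ T.bdIn z (G ∪ G') ↔ v ∈ T.bdIn z' G') ∧ v ∉ T.bdIn z G) ∧
    ((v ∉ T.sub z' ∨ v = z') →
      (v ∈ T.bdIn z (G ∪ G') ↔ v ∈ T.bdIn z G) ∧ v ∉ T.bdIn z' G') := by
  have hzz : z ∉ T.sub z' := by
    intro h
    rw [PTree.mem_sub] at h hz
    exact hne (h.antisymm hz)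
  constructor
  · rintro ⟨h1, h2⟩
    obtain ⟨h3, h4⟩ := hl_par_sub h1 h2
    have e1 : v ∉ G := fun h => hG v h h1
    have e2 : T.par v ∉ G := fun h => hG _ h h4
    have e3 : v ≠ z := fun h => hzz (h ▸ h1)
    have e4 : v ∈ T.sub z := hl_sub_subset hz h1
    constructor
    · rw [hl_mem_bdIn, hl_mem_bdIn]
      simp only [mem_union, e1, e2, false_or, e3, e4, h1, h2, ne_eq, not_false_eq_true, true_and]
    · rw [hl_mem_bdIn]
      simp [e1, e2]
  · intro h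
    have hv : v ∉ G' := by
      rcases h with h | h
      · exact fun h' => h (hG' h')
      · exact h ▸ htop
    constructor
    · rw [hl_mem_bdIn, hl_mem_bdIn]
      constructor
      · rintro ⟨h1, h2, h3⟩
        refine ⟨h1, h2, ?_⟩
        obtain ⟨h4, h5⟩ := hl_par_sub h1 h2
        have hp : T.par v ∉ G' := by
          intro h'
          rcases h with h | rfl
          · exact hl_par_not_sub h h4 (hG' h')
          · have := hl_le_of_sub (hG' h')
            exact absurd (T.lt v h4) (not_lt.2 this)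
        simpa [mem_union, hv, hp] using h3
      · rintro ⟨h1, h2, h3⟩
        refine ⟨h1, h2, ?_⟩
        obtain ⟨h4, h5⟩ := hl_par_sub h1 h2
        have hp : T.par v ∉ G' := by
          intro h'
          rcases h with h | rfl
          · exact hl_par_not_sub h h4 (hG' h')
          · have := hl_le_of_sub (hG' h')
            exact absurd (T.lt v h4) (not_lt.2 this)
        simpa [mem_union, hv, hp] using h3
    · rw [hl_mem_bdIn]
      rintro ⟨h1, h2, _⟩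
      rcases h with h | h
      · exact h h1
      · exact h2 h

lemma hl_combine {G P Q G' P' Q' : Finset (Fin n)} {z' : Fin n}
    (hL : LayIn T pos far R Z z G P Q) (hL' : LayIn T pos far R Z z' G' P' Q')
    (hz : z' ∈ T.sub z) (hne : z' ≠ z)
    (hG : ∀ v ∈ G, v ∉ T.sub z') (hP : ∀ v ∈ P, v ∉ T.sub z')
    (hQ : ∀ v ∈ Q, v ∉ T.sub z' ∨ v = z') :
    LayIn T pos far R Z z (G ∪ G') (P ∪ P') (Q ∪ Q') := by
  have hzz : z ∉ T.sub z' := by
    intro h
    rw [PTree.mem_sub] at h hz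
    exact hne (h.antisymm hz)
  have key := hl_bd_combine hz hne hG hL'.sub hL'.top
  have hP'sub : ∀ v ∈ P', v ∈ T.sub z' ∧ v ≠ z' := fun v hv =>
    ⟨(hL'.gSelf v hv).1, fun h => (hL'.away v (mem_union_left _ hv)).2
      (h ▸ PTree.self_mem_ball T R v)⟩
  have hQ'sub : ∀ v ∈ Q', v ∈ T.sub z' ∧ v ≠ z' := fun v hv => by
    have := (hL'.sgl v hv).1
    rw [hl_mem_bdIn] at this
    exact ⟨this.1, this.2.1⟩
  have hPQ' : ∀ v ∈ P' ∪ Q', v ∈ T.sub z' := fun v hv => by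
    rcases mem_union.1 hv with h | h
    · exact (hP'sub v h).1
    · exact (hQ'sub v h).1
  have hPQ : ∀ v ∈ P ∪ Q, v ∉ T.sub z' ∨ v = z' := fun v hv => by
    rcases mem_union.1 hv with h | h
    · exact Or.inl (hP v h)
    · exact hQ v h
  have hcross : ∀ u ∈ P ∪ Q, ∀ v ∈ P' ∪ Q', u ∉ T.ball R v := by
    intro u hu v hv hb
    have haw := (hL'.away v hv).2
    rcases hPQ u hu with h | rfl
    · have := (PTree.mem_ball_of_sep hb (PTree.mem_sub.1 (hPQ' v hv))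
        (fun h' => h (PTree.mem_sub.2 h'))).1
      exact haw (PTree.mem_ball_comm.1 this)
    · exact haw (PTree.mem_ball_comm.1 hb)
  refine ⟨?_, ?_, ?_, ?_, ?_, ?_, ?_, ?_, ?_⟩
  · exact union_subset hL.sub (hL'.sub.trans (hl_sub_subset hz))
  · rw [mem_union]
    rintro (h | h)
    · exact hL.top h
    · exact hzz (hL'.sub h)
  · intro v hv
    by_cases h : v ∈ T.sub z' ∧ v ≠ z'
    · rcases hL'.bd v ((((key v).1 h).1).1 hv) with h' | h'
      · exact Or.inl (mem_union_right _ h')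
      · exact Or.inr ⟨h'.1, mem_union_right _ h'.2⟩
    · have h2 : v ∉ T.sub z' ∨ v = z' := by tauto
      rcases hL.bd v ((((key v).2 h2).1).1 hv) with h' | h'
      · exact Or.inl (mem_union_left _ h')
      · exact Or.inr ⟨h'.1, mem_union_left _ h'.2⟩
  · intro v hv
    rcases mem_union.1 hv with h | h
    · have h2 := hQ v h
      obtain ⟨h3, h4⟩ := hL.sgl v h
      refine ⟨(((key v).2 h2).1).2 h3, ?_⟩
      have hv' : v ∉ G' := by
        rcases h2 with h2 | h2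
        · exact fun h' => h2 (hL'.sub h')
        · exact h2 ▸ hL'.top
      have e : decide (v ∈ G ∪ G') = decide (v ∈ G) := by simp [hv']
      rw [e]; exact h4
    · have h2 := hQ'sub v h
      obtain ⟨h3, h4⟩ := hL'.sgl v h
      refine ⟨(((key v).1 h2).1).2 h3, ?_⟩
      have hv' : v ∉ G := fun h' => hG v h' h2.1
      have e : decide (v ∈ G ∪ G') = decide (v ∈ G') := by simp [hv']
      rw [e]; exact h4
  · intro p hp c hc hf
    rcases mem_union.1 hp with h | h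
    · have h3 := hL.gFar p h c hc hf
      by_cases h2 : c ∈ T.sub z' ∧ c ≠ z'
      · exact absurd h3 ((key c).1 h2).2
      · exact (((key c).2 (by tauto)).1).2 h3
    · have h3 := hL'.gFar p h c hc hf
      by_cases h2 : c ∈ T.sub z' ∧ c ≠ z'
      · exact (((key c).1 h2).1).2 h3
      · exact absurd h3 ((key c).2 (by tauto)).2
  · intro p hp c hc hf hbd
    rcases mem_union.1 hp with h | h
    · have h3 := hL.gNear p h c hc hf
      have h4 : c ∉ T.sub z' ∨ c = z' := by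
        by_contra hcon
        push Not at hcon
        have := (hl_par_sub hcon.1 hcon.2).2
        rw [(hl_mem_ch.1 hc).2] at this
        exact hP p h this
      exact h3 ((((key c).2 h4).1).1 hbd)
    · have h3 := hL'.gNear p h c hc hf
      have h4 : c ∈ T.sub z' ∧ c ≠ z' := by
        have h5 := (hP'sub p h).1
        refine ⟨hl_ch_sub h5 hc, ?_⟩
        rintro rfl
        exact absurd (hl_lt_ch hc) (not_lt.2 (hl_le_of_sub h5))
      exact h3 ((((key c).1 h4).1).1 hbd)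
  · intro p hp
    rcases mem_union.1 hp with h | h
    · have h3 := hL.gSelf p h
      exact ⟨h3.1, fun hbd => h3.2 ((((key p).2 (Or.inl (hP p h))).1).1 hbd)⟩
    · have h3 := hL'.gSelf p h
      exact ⟨hl_sub_subset hz h3.1, fun hbd => h3.2 ((((key p).1 (hP'sub p h)).1).1 hbd)⟩
  · intro v hv
    have hv' : v ∈ (P ∪ Q) ∨ v ∈ (P' ∪ Q') := by
      simp only [mem_union] at hv ⊢; tauto
    rcases hv' with h | h
    · exact hL.away v h
    · refine ⟨(hL'.away v h).1, fun hb => ?_⟩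
      have h1 : z ∈ T.ball R v := PTree.mem_ball_comm.1 hb
      have := (PTree.mem_ball_of_sep h1 (PTree.mem_sub.1 (hPQ' v h))
        (fun h' => hzz (PTree.mem_sub.2 h'))).1
      exact (hL'.away v h).2 (PTree.mem_ball_comm.1 this)
  · intro u hu v hv huv
    have hu' : u ∈ (P ∪ Q) ∨ u ∈ (P' ∪ Q') := by
      simp only [mem_union] at hu ⊢; tauto
    have hv' : v ∈ (P ∪ Q) ∨ v ∈ (P' ∪ Q') := by
      simp only [mem_union] at hv ⊢; tauto
    rcases hu' with h | h <;> rcases hv' with h' | h'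
    · exact hL.sep u h v h' huv
    · exact fun hb => hcross u h v h' (PTree.mem_ball_comm.1 hb)
    · exact hcross v h' u h
    · exact hL'.sep u h v h' huv

/-- The facts needed to combine a greedy layout with a layout below a top of the reserve. -/
lemma hl_side (hS : HLSt T pos R Z z a W) {z' : Fin n} (hz' : z' ∈ T.tops far a.1 a.2) :
    z' ∈ T.sub z ∧ z' ≠ z ∧ (∀ v ∈ HLG T far a W, v ∉ T.sub z') ∧
      (∀ v ∈ HLP T far a W, v ∉ T.sub z') ∧ (∀ v ∈ HLQ T far a W, v ∉ T.sub z' ∨ v = z') := by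
  have h1 : z' ∈ T.item far a.1 a.2 := hl_tops_subset hz'
  have hsub : ∀ v ∈ T.sub z', v ∈ T.item far a.1 a.2 := fun v hv =>
    hl_mem_item.2 ⟨z', hz', hv⟩
  refine ⟨hl_item_sub hS.asub h1, ?_, ?_, ?_, ?_⟩
  · rintro rfl
    exact hl_z_item hS.asub (fun h => (hS.apos h).1) h1
  · intro v hv hv'
    exact (hl_mem_G.1 hv).2 (hsub v hv')
  · intro v hv hv'
    rw [hl_mem_P] at hv
    rcases hv with ⟨w, hw, h2, h3, rfl⟩ | ⟨h2, h3, rfl⟩
    · exact h3 (hl_mem_H.2 (Or.inl (hsub _ hv')))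
    · exact (hl_mem_G.1 h3).2 (hsub _ hv')
  · intro v hv
    rw [hl_mem_Q] at hv
    rcases hv with ⟨w, hw, h2, h3, rfl⟩ | ⟨h2, h3, rfl⟩
    · left
      intro hv'
      have ht : w.2 ∈ T.tops far w.1 w.2 := by
        unfold PTree.tops
        rw [if_neg (by simp [h2])]
        simp
      exact hl_top_not_res hS hw ht h3 (hsub _ hv')
    · right
      rcases hl_tops_cases hz' with ⟨_, h⟩ | ⟨h, _⟩
      · exact h.symm
      · rw [h2] at h
        exact absurd h (by simp)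

/-! ### Sums -/

lemma hl_card_tops {Δ : ℕ} (hΔ : T.Deg Δ) (b : Bool) (t : Fin n) :
    ((T.tops far b t).card : ℤ) ≤ (Δ : ℤ) + 1 := by
  unfold PTree.tops
  split_ifs
  · have h1 : (T.far far t).card ≤ (T.ch t).card := card_le_card (filter_subset _ _)
    have h2 := hΔ t
    unfold PTree.nch at h2
    have : (T.far far t).card ≤ Δ := h1.trans h2
    omega
  · simp

lemma hl_tops_disj {b : Bool} {t c c' : Fin n} (h : c ∈ T.tops far b t)
    (h' : c' ∈ T.tops far b t) (hne : c ≠ c') : Disjoint (T.sub c) (T.sub c') := by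
  rcases hl_tops_cases h with ⟨h1, rfl⟩ | ⟨h1, h2, _⟩ <;>
    rcases hl_tops_cases h' with ⟨h3, h4⟩ | ⟨h3, h4, _⟩
  · exact absurd h4.symm hne
  · rw [h1] at h3; exact absurd h3 (by simp)
  · rw [h3] at h1; exact absurd h1 (by simp)
  · exact PTree.sub_disjoint h2 h4 hne

lemma hl_sum_item (g : Fin n → ℤ) (b : Bool) (t : Fin n) :
    ∑ x ∈ T.item far b t, g x = ∑ c ∈ T.tops far b t, ∑ x ∈ T.sub c, g x := by
  unfold PTree.item
  refine sum_biUnion ?_
  intro c hc c' hc' hne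
  exact hl_tops_disj hc hc' hne

lemma hl_sum_item_le {Δ : ℕ} (hΔ : T.Deg Δ) (g : Fin n → ℤ) (b : Bool) (t : Fin n) (θ : ℤ)
    (hθ : 0 ≤ θ) (h : ∀ c ∈ T.tops far b t, ∑ x ∈ T.sub c, g x ≤ θ) :
    ∑ x ∈ T.item far b t, g x ≤ ((Δ : ℤ) + 1) * θ := by
  rw [hl_sum_item]
  calc ∑ c ∈ T.tops far b t, ∑ x ∈ T.sub c, g x ≤ ∑ c ∈ T.tops far b t, θ := sum_le_sum h
    _ = ((T.tops far b t).card : ℤ) * θ := by rw [sum_const, nsmul_eq_mul]
    _ ≤ ((Δ : ℤ) + 1) * θ := mul_le_mul_of_nonneg_right (hl_card_tops hΔ b t) hθ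

/-- The forbidden set of the greedy step. -/
def HLZ (T : PTree n) (R : ℕ) (Z : Finset (Fin n)) (z : Fin n) (a : Bool × Fin n)
    (W : Finset (Bool × Fin n)) : Finset (Fin n) :=
  (Z ∪ T.ball R z) ∪ (T.ball (R+1) a.2 ∪ W.biUnion fun w => T.ball (R+1) w.2)

lemma hl_card_Z {Δ z₀ : ℕ} (hΔ : T.Deg Δ) (hZ : Z.card ≤ z₀) :
    (HLZ T R Z z a W).card + 1 ≤ (z₀ + 2 * (Δ + 2) ^ (R+1) + 1) * (W.card + 1) := by
  have h1 := PTree.card_ball T hΔ R z
  have h2 := PTree.card_ball T hΔ (R+1) a.2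
  have h3 : (W.biUnion fun w => T.ball (R+1) w.2).card ≤ W.card * (Δ + 2) ^ (R+1) :=
    card_biUnion_le_card_mul _ _ _ fun w _ => PTree.card_ball T hΔ (R+1) w.2
  have h4 : (Δ + 2) ^ R ≤ (Δ + 2) ^ (R+1) := Nat.pow_le_pow_right (by omega) (by omega)
  have h5 : (HLZ T R Z z a W).card ≤ (Z.card + (T.ball R z).card) +
      ((T.ball (R+1) a.2).card + (W.biUnion fun w => T.ball (R+1) w.2).card) := by
    unfold HLZ
    refine (card_union_le _ _).trans ?_
    exact Nat.add_le_add (card_union_le _ _) (card_union_le _ _)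
  generalize (Δ + 2) ^ (R+1) = ρ at *
  generalize (Δ + 2) ^ R = ρ' at *
  nlinarith [Nat.zero_le (W.card * z₀), Nat.zero_le (W.card * ρ), Nat.zero_le W.card]

lemma hl_H_insert (w : Bool × Fin n) :
    HLH T far a (insert w W) = HLH T far a W ∪ T.item far w.1 w.2 := by
  ext v
  rw [mem_union, hl_mem_H, hl_mem_H]
  constructor
  · rintro (h | ⟨w', hw', h⟩)
    · exact Or.inl (Or.inl h)
    · rcases mem_insert.1 hw' with rfl | hw'
      · exact Or.inr h
      · exact Or.inl (Or.inr ⟨w', hw', h⟩)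
  · rintro ((h | ⟨w', hw', h⟩) | h)
    · exact Or.inl h
    · exact Or.inr ⟨w', mem_insert_of_mem hw', h⟩
    · exact Or.inr ⟨w, mem_insert_self _ _, h⟩

lemma hl_G_insert (w : Bool × Fin n) :
    HLG T far a (insert w W) = HLG T far a W ∪ (T.item far w.1 w.2 \ HLH T far a W) := by
  ext v
  have h1 : v ∈ T.item far a.1 a.2 → v ∈ HLH T far a W := fun h => hl_mem_H.2 (Or.inl h)
  rw [mem_union, hl_mem_G, hl_mem_G, mem_sdiff, hl_H_insert, mem_union]
  tauto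

lemma hl_sum_G_insert (g : Fin n → ℤ) (w : Bool × Fin n) :
    ∑ x ∈ HLG T far a (insert w W), g x = ∑ x ∈ HLG T far a W, g x +
      ∑ x ∈ T.item far w.1 w.2, (if x ∈ HLH T far a W then 0 else g x) := by
  rw [hl_G_insert, sum_union]
  · congr 1
    rw [sdiff_eq_filter, sum_filter]
    refine sum_congr rfl fun x _ => ?_
    by_cases h : x ∈ HLH T far a W
    · rw [if_neg (fun h' => h' h), if_pos h]
    · rw [if_pos h, if_neg h]
  · rw [disjoint_left]
    intro v hv hv'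
    exact (mem_sdiff.1 hv').2 (hl_mem_G.1 hv).1

lemma hl_sum_sub (hS : HLSt T pos R Z z a W) (g : Fin n → ℤ) :
    ∑ x ∈ T.sub z, (if x ∈ HLH T far a W then 0 else g x) =
      ∑ x ∈ T.sub z, g x - ∑ x ∈ T.item far a.1 a.2, g x - ∑ x ∈ HLG T far a W, g x := by
  have h1 : ∑ x ∈ T.sub z, (if x ∈ HLH T far a W then 0 else g x) +
      ∑ x ∈ HLH T far a W, g x = ∑ x ∈ T.sub z, g x := by
    have h2 : ∑ x ∈ HLH T far a W, g x =
        ∑ x ∈ T.sub z, (if x ∈ HLH T far a W then g x else 0) := by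
      rw [← sum_filter]
      refine sum_congr ?_ fun _ _ => rfl
      ext x
      rw [mem_filter]
      exact ⟨fun h => ⟨hl_H_sub hS h, h⟩, fun h => h.2⟩
    rw [h2, ← sum_add_distrib]
    refine sum_congr rfl fun x _ => ?_
    split_ifs <;> ring
  have h3 : ∑ x ∈ HLG T far a W, g x + ∑ x ∈ T.item far a.1 a.2, g x =
      ∑ x ∈ HLH T far a W, g x := by
    unfold HLG
    exact sum_sdiff fun v hv => hl_mem_H.2 (Or.inl hv)
  linarith

/-- One step of the greedy algorithm. -/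
lemma hl_step {Δ z₀ : ℕ} (hΔ : T.Deg Δ) (g : Fin n → ℤ) (hg : ∀ v, |g v| ≤ 1)
    (hZ₀ : Z.card ≤ z₀) (hZ : T.Alt pos far Z) (hS : HLSt T pos R Z z a W) (q' m θ : ℤ)
    (hθ0 : 0 < θ) (hθ1 : 2 * ((Δ : ℤ) + 1) * θ ≤ q')
    (hθ2 : 4 * ((Δ : ℤ) + 1) ^ 2 * ((z₀ + 2 * (Δ + 2) ^ (R+1) + 1) * (W.card + 1)) ≤ θ)
    (hm : 3 * q' < 4 * (m - ∑ x ∈ HLG T far a W, g x))
    (hq : q' ≤ ∑ x ∈ T.sub z, g x - ∑ x ∈ T.item far a.1 a.2, g x -
      ∑ x ∈ HLG T far a W, g x) :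
    ∃ w, w ∉ W ∧ HLSt T pos R Z z a (insert w W) ∧
      ∑ x ∈ HLG T far a (insert w W), g x ≤ m ∧
      θ ≤ 2 * ((Δ : ℤ) + 1) ^ 2 * ((z₀ + 2 * (Δ + 2) ^ (R+1) + 1) * (W.card + 1)) *
        (∑ x ∈ HLG T far a (insert w W), g x - ∑ x ∈ HLG T far a W, g x) := by
  set gk : Fin n → ℤ := fun x => if x ∈ HLH T far a W then 0 else g x with hgk
  have hgk1 : ∀ v, |gk v| ≤ 1 := by
    intro v
    rw [hgk]
    dsimp only
    split_ifs
    · simp
    · exact hg v
  have hcard : (((HLZ T R Z z a W).card : ℤ) + 1) ≤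
      ((z₀ + 2 * (Δ + 2) ^ (R+1) + 1) * (W.card + 1)) := by
    exact_mod_cast hl_card_Z (T := T) (R := R) (z := z) (a := a) (W := W) hΔ hZ₀
  have hD : (0 : ℤ) ≤ ((Δ : ℤ) + 1) ^ 2 := by positivity
  have hAlt : T.Alt pos far (HLZ T R Z z a W) := by
    intro v hv hvZ
    exact hZ v hv fun h => hvZ (mem_union_left _ (mem_union_left _ h))
  have h1 : θ ≤ ∑ x ∈ T.sub z, gk x := by
    rw [hgk, hl_sum_sub hS]
    refine le_trans ?_ hq
    have : (0 : ℤ) ≤ (Δ : ℤ) * θ := by positivity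
    nlinarith
  have h2 : 4 * ((Δ : ℤ) + 1) ^ 2 * ((HLZ T R Z z a W).card + 1) ≤ θ := by
    refine le_trans ?_ hθ2
    exact mul_le_mul_of_nonneg_left hcard (by positivity)
  obtain ⟨b, t, htz, htZ, hb, htop, hmass⟩ := descend T hΔ gk hgk1 pos far _ hAlt false z θ h1 h2
  have hZ1 : t ∉ Z := fun h => htZ (mem_union_left _ (mem_union_left _ h))
  have hZ2 : t ∉ T.ball R z := fun h => htZ (mem_union_left _ (mem_union_right _ h))
  have hZ3 : t ∉ T.ball (R+1) a.2 := fun h => htZ (mem_union_right _ (mem_union_left _ h))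
  have hZ4 : ∀ w ∈ W, t ∉ T.ball (R+1) w.2 := fun w hw h =>
    htZ (mem_union_right _ (mem_union_right _ (mem_biUnion.2 ⟨w, hw, h⟩)))
  have hpos : 0 < ∑ x ∈ T.item far b t, gk x := by
    by_contra hcon
    push Not at hcon
    have : 2 * ((Δ : ℤ) + 1) ^ 2 * ((HLZ T R Z z a W).card + 1) * ∑ x ∈ T.item far b t, gk x ≤ 0 :=
      mul_nonpos_of_nonneg_of_nonpos (by positivity) hcon
    linarith
  have hle : ∑ x ∈ T.item far b t, gk x ≤ ((Δ : ℤ) + 1) * θ :=
    hl_sum_item_le hΔ gk b t θ hθ0.le htop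
  refine ⟨(b, t), ?_, ?_, ?_, ?_⟩
  · intro h
    exact hZ4 _ h (PTree.self_mem_ball T (R+1) t)
  · refine ⟨hS.asub, hS.aZ, hS.az, hS.apos, ?_, ?_, ?_, ?_, ?_, ?_⟩
    · intro w hw
      rcases mem_insert.1 hw with rfl | hw
      · exact htz
      · exact hS.subz w hw
    · intro w hw
      rcases mem_insert.1 hw with rfl | hw
      · exact hZ1
      · exact hS.nZ w hw
    · intro w hw
      rcases mem_insert.1 hw with rfl | hw
      · exact hZ2
      · exact hS.nz w hw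
    · intro w hw
      rcases mem_insert.1 hw with rfl | hw
      · exact hb
      · exact hS.ps w hw
    · intro w hw w' hw' hne
      rcases mem_insert.1 hw with rfl | hw <;> rcases mem_insert.1 hw' with rfl | hw'
      · exact absurd rfl hne
      · exact fun h => hZ4 w' hw' (PTree.mem_ball_comm.1 h)
      · exact hZ4 w hw
      · exact hS.sep w hw w' hw' hne
    · intro w hw
      rcases mem_insert.1 hw with rfl | hw
      · exact hZ3
      · exact hS.sepa w hw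
  · rw [hl_sum_G_insert]
    change _ + ∑ x ∈ T.item far b t, gk x ≤ m
    linarith
  · rw [hl_sum_G_insert]
    change θ ≤ _ * (_ + ∑ x ∈ T.item far b t, gk x - _)
    rw [add_sub_cancel_left]
    refine hmass.trans ?_
    refine mul_le_mul_of_nonneg_right ?_ hpos.le
    exact mul_le_mul_of_nonneg_left hcard (by positivity)

/-- The greedy loop. -/
lemma hl_loop {Δ z₀ : ℕ} (hΔ : T.Deg Δ) (g : Fin n → ℤ) (hg : ∀ v, |g v| ≤ 1)
    (hZ₀ : Z.card ≤ z₀) (hZ : T.Alt pos far Z) (hS : HLSt T pos R Z z a ∅) (q' m θ : ℤ)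
    (hm0 : 0 ≤ m) (hθ0 : 0 < θ) (hθ1 : 2 * ((Δ : ℤ) + 1) * θ ≤ q')
    (hθ3 : q' ≤ 4 * ((Δ : ℤ) + 1) * θ) (kmax : ℕ)
    (hθ2 : 4 * ((Δ : ℤ) + 1) ^ 2 * ((z₀ + 2 * (Δ + 2) ^ (R+1) + 1) * (kmax + 1)) ≤ θ)
    (hq : q' + m ≤ ∑ x ∈ T.sub z, g x - ∑ x ∈ T.item far a.1 a.2, g x) (k : ℕ) (hk : k ≤ kmax) :
    ∃ W : Finset (Bool × Fin n), HLSt T pos R Z z a W ∧ W.card ≤ k ∧
      ∑ x ∈ HLG T far a W, g x ≤ m ∧
      (4 * (m - ∑ x ∈ HLG T far a W, g x) ≤ 3 * q' ∨
        (q' : ℝ) * ∑ i ∈ range k, (1 / ((i : ℝ) + 1)) ≤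
          8 * ((Δ : ℝ) + 1) ^ 3 * (z₀ + 2 * (Δ + 2) ^ (R+1) + 1) *
            (∑ x ∈ HLG T far a W, g x : ℤ)) := by
  induction k with
  | zero =>
    refine ⟨∅, hS, by simp, ?_, ?_⟩
    · have : HLG T far a ∅ = ∅ := by
        unfold HLG HLH
        simp
      rw [this]
      simpa using hm0
    · right
      have : HLG T far a ∅ = ∅ := by
        unfold HLG HLH
        simp
      rw [this]
      simp
  | succ k ih =>
    obtain ⟨W, hW, hWk, hSm, hor⟩ := ih (by omega)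
    rcases hor with hstop | hgr
    · exact ⟨W, hW, by omega, hSm, Or.inl hstop⟩
    by_cases hstop : 4 * (m - ∑ x ∈ HLG T far a W, g x) ≤ 3 * q'
    · exact ⟨W, hW, by omega, hSm, Or.inl hstop⟩
    push Not at hstop
    have hθ2' : 4 * ((Δ : ℤ) + 1) ^ 2 * ((z₀ + 2 * (Δ + 2) ^ (R+1) + 1) * (W.card + 1)) ≤ θ := by
      refine le_trans ?_ hθ2
      have : (W.card : ℤ) ≤ kmax := by exact_mod_cast (by omega : W.card ≤ kmax)
      gcongr
    obtain ⟨w, hwW, hSt, hS', hmass⟩ := hl_step hΔ g hg hZ₀ hZ hW q' m θ hθ0 hθ1 hθ2' hstop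
      (by linarith)
    refine ⟨insert w W, hSt, ?_, hS', Or.inr ?_⟩
    · rw [card_insert_of_notMem hwW]
      omega
    · rw [sum_range_succ, mul_add]
      set S := ∑ x ∈ HLG T far a W, g x with hSdef
      set S2 := ∑ x ∈ HLG T far a (insert w W), g x with hS2def
      have hzB : (0 : ℝ) < (z₀ : ℝ) + 2 * ((Δ : ℝ) + 2) ^ (R+1) + 1 := by positivity
      set zB : ℝ := (z₀ : ℝ) + 2 * ((Δ : ℝ) + 2) ^ (R+1) + 1 with hzBdef
      have hmassR : (θ : ℝ) ≤ 2 * ((Δ : ℝ) + 1) ^ 2 * (zB * ((W.card : ℝ) + 1)) *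
          ((S2 : ℝ) - (S : ℝ)) := by
        rw [hzBdef]
        exact_mod_cast hmass
      have hpos2 : (0 : ℝ) < (S2 : ℝ) - (S : ℝ) := by
        by_contra hcon
        push Not at hcon
        have h0 : 2 * ((Δ : ℝ) + 1) ^ 2 * (zB * ((W.card : ℝ) + 1)) *
          ((S2 : ℝ) - (S : ℝ)) ≤ 0 := mul_nonpos_of_nonneg_of_nonpos (by positivity) hcon
        have h1 : (0 : ℝ) < θ := by exact_mod_cast hθ0
        linarith
      have hWkR : (W.card : ℝ) ≤ k := by exact_mod_cast hWk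
      have h2 : (θ : ℝ) ≤ 2 * ((Δ : ℝ) + 1) ^ 2 * (zB * ((k : ℝ) + 1)) *
          ((S2 : ℝ) - (S : ℝ)) := by
        refine hmassR.trans ?_
        gcongr
      have h3 : (q' : ℝ) ≤ 4 * ((Δ : ℝ) + 1) * θ := by exact_mod_cast hθ3
      have h4 : (q' : ℝ) * (1 / ((k : ℝ) + 1)) ≤ 8 * ((Δ : ℝ) + 1) ^ 3 * zB *
          ((S2 : ℝ) - (S : ℝ)) := by
        rw [mul_one_div, div_le_iff₀ (by positivity)]
        calc (q' : ℝ) ≤ 4 * ((Δ : ℝ) + 1) * θ := h3
          _ ≤ 4 * ((Δ : ℝ) + 1) * (2 * ((Δ : ℝ) + 1) ^ 2 * (zB * ((k : ℝ) + 1)) *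
              ((S2 : ℝ) - (S : ℝ))) := mul_le_mul_of_nonneg_left h2 (by positivity)
          _ = _ := by ring
      calc _ ≤ 8 * ((Δ : ℝ) + 1) ^ 3 * zB * (S : ℝ) +
            8 * ((Δ : ℝ) + 1) ^ 3 * zB * ((S2 : ℝ) - (S : ℝ)) := add_le_add hgr h4
        _ = _ := by ring

lemma hl_empty : LayIn T pos far R Z z ∅ ∅ ∅ where
  sub := by simp
  top := by simp
  bd := by
    intro v hv
    rw [hl_mem_bdIn] at hv
    exact absurd hv.2.2 (by simp)
  sgl := by simp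
  gFar := by simp
  gNear := by simp
  gSelf := by simp
  away := by simp
  sep := by simp

lemma hl_card_PQ : (HLP T far a W ∪ HLQ T far a W).card ≤ W.card + 1 := by
  have h1 : HLP T far a W ∪ HLQ T far a W ⊆ insert a.2 (W.image Prod.snd) := by
    intro v hv
    rcases hl_mem_PQ hv with rfl | ⟨w, hw, rfl⟩
    · exact mem_insert_self _ _
    · exact mem_insert_of_mem (mem_image_of_mem _ hw)
  refine (card_le_card h1).trans ((card_insert_le _ _).trans ?_)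
  exact Nat.add_le_add_right card_image_le 1

lemma hl_arith1 (D zA X q : ℤ) (hD : 1 ≤ D) (hzA : 1 ≤ zA) (hX : 0 ≤ X)
    (hq : 32 * D ^ 3 * zA + X < q) :
    4 * D ^ 2 * zA ≤ q / (8 * D) ∧ 8 * D * (q / (8 * D)) ≤ q ∧ q ≤ 16 * D * (q / (8 * D)) := by
  have h8 : (0 : ℤ) < 8 * D := by linarith
  have h1 : 4 * D ^ 2 * zA ≤ q / (8 * D) := by
    rw [Int.le_ediv_iff_mul_le h8]
    have : 4 * D ^ 2 * zA * (8 * D) = 32 * D ^ 3 * zA := by ring
    rw [this]; linarith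
  have h2 : 8 * D * (q / (8 * D)) ≤ q := Int.mul_ediv_self_le (by omega)
  have h3 : q < 8 * D * (q / (8 * D)) + 8 * D := by
    have := Int.lt_ediv_add_one_mul_self q h8
    linarith
  refine ⟨h1, h2, ?_⟩
  have h4 : 1 ≤ q / (8 * D) := by
    refine le_trans ?_ h1
    nlinarith [mul_pos (show (0 : ℤ) < D by linarith) (show (0 : ℤ) < D by linarith)]
  nlinarith

lemma hl_arith2 (D Y q' : ℤ) (hD : 1 ≤ D) (hY : 1 ≤ Y) (hq : 8 * D ^ 3 * Y < q') :
    4 * D ^ 2 * Y ≤ q' / (2 * D) ∧ 2 * D * (q' / (2 * D)) ≤ q' ∧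
      q' ≤ 4 * D * (q' / (2 * D)) ∧ 0 < q' / (2 * D) := by
  have h8 : (0 : ℤ) < 2 * D := by linarith
  have h1 : 4 * D ^ 2 * Y ≤ q' / (2 * D) := by
    rw [Int.le_ediv_iff_mul_le h8]
    have : 4 * D ^ 2 * Y * (2 * D) = 8 * D ^ 3 * Y := by ring
    rw [this]; linarith
  have h2 : 2 * D * (q' / (2 * D)) ≤ q' := Int.mul_ediv_self_le (by omega)
  have h3 : q' < 2 * D * (q' / (2 * D)) + 2 * D := by
    have := Int.lt_ediv_add_one_mul_self q' h8
    linarith
  have h4 : 1 ≤ q' / (2 * D) := by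
    refine le_trans ?_ h1
    nlinarith [mul_pos (show (0 : ℤ) < D by linarith) (show (0 : ℤ) < D by linarith)]
  refine ⟨h1, h2, ?_, by omega⟩
  nlinarith

/-- The inductive step. -/
lemma hl_main {Δ z₀ : ℕ} (hΔ : T.Deg Δ) (g : Fin n → ℤ) (hg : ∀ v, |g v| ≤ 1)
    (hZ₀ : Z.card ≤ z₀) (hZ : T.Alt pos far Z) (kmax : ℕ)
    (hk : 6 * ((Δ : ℝ) + 1) ^ 3 * (z₀ + 2 * (Δ + 2) ^ (R+1) + 1) *
      (32 * ((Δ : ℝ) + 1) ^ 4 * (z₀ + (Δ + 2) ^ R + 1)) <
        ∑ i ∈ range kmax, (1 / ((i : ℝ) + 1))) (K₀ : ℕ)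
    (hK₀ : K₀ = 32 * (Δ + 1) ^ 3 * (z₀ + (Δ + 2) ^ R + 1) +
      8 * (Δ + 1) ^ 3 * (z₀ + 2 * (Δ + 2) ^ (R+1) + 1) * (kmax + 1) *
        (32 * (Δ + 1) ^ 4 * (z₀ + (Δ + 2) ^ R + 1))) (l : ℕ) :
    ∀ (z : Fin n) (m : ℤ), 0 ≤ m → 4 * m ≤ 3 * ∑ x ∈ T.sub z, g x →
      ∑ x ∈ T.sub z, g x < 2 ^ l →
      ∃ G P Q : Finset (Fin n), LayIn T pos far R Z z G P Q ∧
        (P ∪ Q).card ≤ (kmax + 1) * l ∧ m - K₀ ≤ ∑ x ∈ G, g x ∧ ∑ x ∈ G, g x ≤ m := by
  induction l with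
  | zero =>
    intro z m hm0 hm hq
    rw [pow_zero] at hq
    have hm1 : m = 0 := by omega
    exact ⟨∅, ∅, ∅, hl_empty, by simp, by simp [hm1], by simp [hm1]⟩
  | succ l ih =>
    intro z m hm0 hm hq
    set q := ∑ x ∈ T.sub z, g x with hqdef
    by_cases hqK : q ≤ K₀
    · refine ⟨∅, ∅, ∅, hl_empty, by simp, ?_, ?_⟩
      · rw [sum_empty]
        have : (0 : ℤ) ≤ K₀ := by positivity
        linarith
      · rw [sum_empty]
        exact hm0
    push Not at hqK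
    -- constants
    obtain ⟨D, hD⟩ : ∃ D : ℤ, D = (Δ : ℤ) + 1 := ⟨_, rfl⟩
    obtain ⟨zA, hzA⟩ : ∃ x : ℤ, x = (z₀ : ℤ) + (Δ + 2) ^ R + 1 := ⟨_, rfl⟩
    obtain ⟨zB, hzB⟩ : ∃ x : ℤ, x = (z₀ : ℤ) + 2 * (Δ + 2) ^ (R+1) + 1 := ⟨_, rfl⟩
    obtain ⟨kk, hkk⟩ : ∃ x : ℤ, x = (kmax : ℤ) + 1 := ⟨_, rfl⟩
    have hD1 : 1 ≤ D := by rw [hD]; omega
    have hzA1 : 1 ≤ zA := by
      rw [hzA]
      have h1 : (0 : ℤ) ≤ (z₀ : ℤ) + (Δ + 2) ^ R := by positivity
      linarith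
    have hzB1 : 1 ≤ zB := by
      rw [hzB]
      have h1 : (0 : ℤ) ≤ (z₀ : ℤ) + 2 * (Δ + 2) ^ (R+1) := by positivity
      linarith
    have hkk1 : 1 ≤ kk := by rw [hkk]; omega
    have hKq : 32 * D ^ 3 * zA + 8 * D ^ 3 * zB * kk * (32 * D ^ 4 * zA) < q := by
      rw [hD, hzA, hzB, hkk]
      refine lt_of_eq_of_lt ?_ hqK
      rw [hK₀]
      push_cast
      ring
    obtain ⟨hθA1, hθA2, hθA3⟩ := hl_arith1 D zA _ q hD1 hzA1 (by positivity) hKq
    -- the reserve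
    have hcardA : (((Z ∪ T.ball R z).card : ℤ) + 1) ≤ zA := by
      rw [hzA]
      have h1 := PTree.card_ball T hΔ R z
      have h2 := card_union_le Z (T.ball R z)
      have h3 : (Z ∪ T.ball R z).card ≤ z₀ + (Δ + 2) ^ R := by omega
      have h4 : ((Z ∪ T.ball R z).card : ℤ) ≤ (z₀ : ℤ) + (Δ + 2) ^ R := by exact_mod_cast h3
      linarith
    have hAltA : T.Alt pos far (Z ∪ T.ball R z) := fun v hv hvZ =>
      hZ v hv fun h => hvZ (mem_union_left _ h)
    have hq0 : 0 < q := lt_of_le_of_lt (by positivity) hKq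
    have hθA0 : 0 < q / (8 * D) := by
      refine lt_of_lt_of_le ?_ hθA1
      positivity
    have hθAq : q / (8 * D) ≤ q := by
      have : q / (8 * D) ≤ 8 * D * (q / (8 * D)) :=
        le_mul_of_one_le_left hθA0.le (by linarith)
      linarith
    obtain ⟨b, t, htz, htZ, hb, htop, hmass⟩ := descend T hΔ g hg pos far _ hAltA true z
      (q / (8 * D)) hθAq (by
        refine le_trans ?_ hθA1
        rw [← hD]
        exact mul_le_mul_of_nonneg_left hcardA (by positivity))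
    have hZ1 : t ∉ Z := fun h => htZ (mem_union_left _ h)
    have hZ2 : t ∉ T.ball R z := fun h => htZ (mem_union_right _ h)
    have hS : HLSt T pos R Z z (b, t) ∅ := by
      refine ⟨htz, hZ1, hZ2, hb, ?_, ?_, ?_, ?_, ?_, ?_⟩ <;> simp
    have hitem : 0 < ∑ x ∈ T.item far b t, g x := by
      by_contra hcon
      push Not at hcon
      have : 2 * ((Δ : ℤ) + 1) ^ 2 * ((Z ∪ T.ball R z).card + 1) * ∑ x ∈ T.item far b t, g x ≤ 0 :=
        mul_nonpos_of_nonneg_of_nonpos (by positivity) hcon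
      linarith
    have hne : (T.tops far b t).Nonempty := by
      rw [nonempty_iff_ne_empty]
      intro h
      rw [hl_sum_item, h, sum_empty] at hitem
      exact lt_irrefl _ hitem
    obtain ⟨z', hz', hmax⟩ := exists_max_image (T.tops far b t) (fun c => ∑ x ∈ T.sub c, g x) hne
    set q' := ∑ x ∈ T.sub z', g x with hq'def
    have hq'0 : 0 < q' := by
      by_contra hcon
      push Not at hcon
      rw [hl_sum_item] at hitem
      have : ∑ c ∈ T.tops far b t, ∑ x ∈ T.sub c, g x ≤ 0 :=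
        sum_nonpos fun c hc => (hmax c hc).trans hcon
      linarith
    have hitem2 : ∑ x ∈ T.item far b t, g x ≤ D * q' := by
      rw [hD]
      exact hl_sum_item_le hΔ g b t q' hq'0.le hmax
    have hitem3 : ∑ x ∈ T.item far b t, g x ≤ D * (q / (8 * D)) := by
      rw [hD]
      rw [hD] at hθA0 htop
      exact hl_sum_item_le hΔ g b t _ hθA0.le htop
    have hq'q : q' ≤ q / (8 * D) := htop z' hz'
    have hqC : q ≤ 32 * D ^ 4 * zA * q' := by
      have h1 : q / (8 * D) ≤ 2 * D ^ 2 * zA * (D * q') := by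
        calc q / (8 * D) ≤ 2 * ((Δ : ℤ) + 1) ^ 2 * ((Z ∪ T.ball R z).card + 1) *
              ∑ x ∈ T.item far b t, g x := hmass
          _ ≤ 2 * D ^ 2 * zA * (D * q') := by
              rw [← hD]
              refine mul_le_mul ?_ hitem2 hitem.le (by positivity)
              exact mul_le_mul_of_nonneg_left hcardA (by positivity)
      calc q ≤ 16 * D * (q / (8 * D)) := hθA3
        _ ≤ 16 * D * (2 * D ^ 2 * zA * (D * q')) := mul_le_mul_of_nonneg_left h1 (by positivity)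
        _ = _ := by ring
    have hq'big : 8 * D ^ 3 * (zB * kk) < q' := by
      have hCpos : 0 < 32 * D ^ 4 * zA := by positivity
      have h1 : 8 * D ^ 3 * (zB * kk) * (32 * D ^ 4 * zA) < q' * (32 * D ^ 4 * zA) := by
        have h2 : 0 ≤ 32 * D ^ 3 * zA := by positivity
        calc 8 * D ^ 3 * (zB * kk) * (32 * D ^ 4 * zA)
            = 8 * D ^ 3 * zB * kk * (32 * D ^ 4 * zA) := by ring
          _ < q := by linarith
          _ ≤ 32 * D ^ 4 * zA * q' := hqC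
          _ = q' * (32 * D ^ 4 * zA) := by ring
      exact lt_of_mul_lt_mul_right h1 hCpos.le
    have hY1 : 1 ≤ zB * kk := by
      have : 0 < zB * kk := mul_pos (by linarith) (by linarith)
      linarith
    obtain ⟨hθ1, hθ2, hθ3, hθ4⟩ := hl_arith2 D (zB * kk) q' hD1 hY1 hq'big
    have h8q' : 8 * q' ≤ q := by
      have : q / (8 * D) ≤ D * (q / (8 * D)) := le_mul_of_one_le_left hθA0.le hD1
      linarith
    have h8item : 8 * ∑ x ∈ T.item far b t, g x ≤ q := by linarith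
    obtain ⟨W, hW, hWk, hSm, hor⟩ := hl_loop (a := (b, t)) hΔ g hg hZ₀ hZ hS q' m (q' / (2 * D))
      hm0 hθ4 (by rw [← hD]; exact hθ2) (by rw [← hD]; exact hθ3) kmax
      (by rw [← hD, ← hzB, ← hkk]; exact hθ1)
      (by change q' + m ≤ q - ∑ x ∈ T.item far b t, g x; linarith) kmax le_rfl
    have hstop : 4 * (m - ∑ x ∈ HLG T far (b, t) W, g x) ≤ 3 * q' := by
      rcases hor with h | h
      · exact h
      · exfalso
        set Hs := ∑ i ∈ range kmax, (1 / ((i : ℝ) + 1)) with hHs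
        have e1 : (((∑ x ∈ HLG T far (b, t) W, g x : ℤ)) : ℝ) ≤ (m : ℝ) := by exact_mod_cast hSm
        have e2 : 4 * (m : ℝ) ≤ 3 * (q : ℝ) := by exact_mod_cast hm
        have e3 : (q : ℝ) ≤ 32 * ((Δ : ℝ) + 1) ^ 4 * ((z₀ : ℝ) + (Δ + 2) ^ R + 1) * q' := by
          have := hqC
          rw [hD, hzA] at this
          exact_mod_cast this
        have e4 : (0 : ℝ) < q' := by exact_mod_cast hq'0
        set A := 8 * ((Δ : ℝ) + 1) ^ 3 * (z₀ + 2 * (Δ + 2) ^ (R+1) + 1) with hA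
        have hA0 : 0 < A := by positivity
        have e5 : (q' : ℝ) * Hs ≤ A * (3 / 4 * (32 * ((Δ : ℝ) + 1) ^ 4 *
            ((z₀ : ℝ) + (Δ + 2) ^ R + 1) * q')) := by
          refine h.trans (mul_le_mul_of_nonneg_left ?_ hA0.le)
          linarith
        have e6 : A * (3 / 4 * (32 * ((Δ : ℝ) + 1) ^ 4 *
            ((z₀ : ℝ) + (Δ + 2) ^ R + 1) * q')) = q' * (6 * ((Δ : ℝ) + 1) ^ 3 *
              (z₀ + 2 * (Δ + 2) ^ (R+1) + 1) *
              (32 * ((Δ : ℝ) + 1) ^ 4 * (z₀ + (Δ + 2) ^ R + 1))) := by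
          rw [hA]; ring
        rw [e6] at e5
        have e7 := le_of_mul_le_mul_left e5 e4
        linarith
    -- the recursion
    obtain ⟨h1, h2, h3, h4, h5⟩ := hl_side hW hz'
    obtain ⟨G, P, Q, hL, hcard, hG1, hG2⟩ := ih z' (m - ∑ x ∈ HLG T far (b, t) W, g x)
      (by linarith) (by linarith) (by
        rw [← hq'def]
        rw [pow_succ] at hq
        have : (0 : ℤ) < 2 ^ l := by positivity
        linarith)
    refine ⟨HLG T far (b, t) W ∪ G, HLP T far (b, t) W ∪ P, HLQ T far (b, t) W ∪ Q,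
      hl_combine (hl_layIn hW) hL h1 h2 h3 h4 h5, ?_, ?_⟩
    · have e : (HLP T far (b, t) W ∪ P) ∪ (HLQ T far (b, t) W ∪ Q) =
          (HLP T far (b, t) W ∪ HLQ T far (b, t) W) ∪ (P ∪ Q) := by
        ext x; simp only [mem_union]; tauto
      rw [e]
      refine (card_union_le _ _).trans ?_
      have := hl_card_PQ (T := T) (far := far) (a := (b, t)) (W := W)
      calc _ ≤ (kmax + 1) + (kmax + 1) * l := Nat.add_le_add (by omega) hcard
        _ = (kmax + 1) * (l + 1) := by ring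
    · have hdisj : Disjoint (HLG T far (b, t) W) G := by
        rw [disjoint_left]
        intro v hv hv'
        exact h3 v hv (hL.sub hv')
      rw [sum_union hdisj]
      constructor <;> linarith

theorem harvest (Δ R z₀ : ℕ) : ∃ K : ℕ, ∀ (n : ℕ) (T : PTree n), T.Deg Δ →
    ∀ g : Fin n → ℤ, (∀ v, |g v| ≤ 1) → ∀ (pos far : Fin n → Bool) (Z : Finset (Fin n)),
    Z.card ≤ z₀ → T.Alt pos far Z → ∀ (z : Fin n) (m : ℤ), 0 ≤ m →
    4 * m ≤ 3 * ∑ x ∈ T.sub z, g x →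
    ∃ G P Q : Finset (Fin n), LayIn T pos far R Z z G P Q ∧
      (P ∪ Q).card ≤ K * (Nat.log 2 n + 1) ∧ m - K ≤ ∑ x ∈ G, g x ∧ ∑ x ∈ G, g x ≤ m := by
  have htend := Real.tendsto_sum_range_one_div_nat_succ_atTop
  obtain ⟨kmax, hk⟩ := (htend.eventually_gt_atTop (6 * ((Δ : ℝ) + 1) ^ 3 *
    (z₀ + 2 * (Δ + 2) ^ (R+1) + 1) *
      (32 * ((Δ : ℝ) + 1) ^ 4 * (z₀ + (Δ + 2) ^ R + 1)))).exists
  obtain ⟨K₀, hK₀⟩ : ∃ K₀ : ℕ, K₀ = 32 * (Δ + 1) ^ 3 * (z₀ + (Δ + 2) ^ R + 1) +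
      8 * (Δ + 1) ^ 3 * (z₀ + 2 * (Δ + 2) ^ (R+1) + 1) * (kmax + 1) *
        (32 * (Δ + 1) ^ 4 * (z₀ + (Δ + 2) ^ R + 1)) := ⟨_, rfl⟩
  refine ⟨K₀ + (kmax + 1), ?_⟩
  intro n T hΔ g hg pos far Z hZ₀ hZ z m hm0 hm
  have hlt : ∑ x ∈ T.sub z, g x < 2 ^ (Nat.log 2 n + 1) := by
    have h1 : ∑ x ∈ T.sub z, g x ≤ n := by
      calc ∑ x ∈ T.sub z, g x ≤ ∑ x ∈ T.sub z, (1 : ℤ) :=
            sum_le_sum fun x _ => (le_abs_self _).trans (hg x)
        _ = ((T.sub z).card : ℤ) := by simp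
        _ ≤ n := by
            have := card_le_univ (T.sub z)
            rw [Fintype.card_fin] at this
            exact_mod_cast this
    have h2 : n < 2 ^ (Nat.log 2 n + 1) := Nat.lt_pow_succ_log_self (by norm_num) n
    have h3 : (n : ℤ) < 2 ^ (Nat.log 2 n + 1) := by exact_mod_cast h2
    linarith
  obtain ⟨G, P, Q, hL, hcard, h1, h2⟩ := hl_main (R := R) hΔ g hg hZ₀ hZ kmax hk K₀ hK₀
    (Nat.log 2 n + 1) z m hm0 hm hlt
  refine ⟨G, P, Q, hL, hcard.trans ?_, ?_, h2⟩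
  · exact Nat.mul_le_mul_right _ (by omega)
  · refine le_trans ?_ h1
    push_cast
    linarith

end

end OT
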